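import Pool.Agent.H72.VPermOrbit

/-!
# Orbits of generalized 3x+1 permutations: the time needed to fill `[-N, N]`
-/

namespace Pool.Agent.H7V

open Finset Pool.Agent.H72.VPerm

section
variable {p : ℕ} {t u : ℕ → ℤ} {T : Equiv.Perm ℤ} (h : VenturiniPerm p t u T)
include h

theorem exists_eta : ∃ η : ℝ, 0 < η ∧ η < 1 ∧ ss p t ≤ p * η ^ 2 := by
  have hpp : (0 : ℝ) < p := by exact_mod_cast ppos h
  set s := ss p t with hs
  have hslt : s < p := ss_lt h
  set g : ℝ := max (s / p) (1 / 2) with hg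
  have hg1 : g < 1 := max_lt (by rw [div_lt_one hpp]; exact hslt) (by norm_num)
  have hg2 : 1 / 2 ≤ g := le_max_right _ _
  refine ⟨Real.sqrt g, Real.sqrt_pos.mpr (by linarith), ?_, ?_⟩
  · rw [Real.sqrt_lt' one_pos, one_pow]; exact hg1
  · rw [Real.sq_sqrt (by linarith)]
    have : s / p ≤ g := le_max_left _ _
    rw [div_le_iff₀ hpp] at this
    linarith

/-- Points of `[-N, N]` which are again in `[-N, N]` after `j` steps. -/
noncomputable def Vis (T : Equiv.Perm ℤ) (j N : ℕ) : Finset ℤ :=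
  {y ∈ Icc (-(N : ℤ)) N | |(T ^ j) y| ≤ (N : ℤ)}

theorem card_Vis (η : ℝ) (hη : 0 < η) (hη1 : η < 1) (hs : ss p t ≤ p * η ^ 2) (j N : ℕ)
    (hN : 1 ≤ N) (hj : (p ^ j) ^ 2 ≤ N) :
    ((Vis T j N).card : ℝ) ≤ 6 * N * η ^ j + (2 * (UU p u : ℝ) + 3) * Real.sqrt N := by
  have hpp : (0 : ℝ) < p := by exact_mod_cast ppos h
  have hU : (0 : ℝ) ≤ UU p u := by exact_mod_cast (UU_nonneg (p := p) (u := u))
  set P : ℝ := (p : ℝ) ^ j with hP
  have hP0 : 0 < P := pow_pos hpp j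
  have hNr : (1 : ℝ) ≤ N := by exact_mod_cast hN
  have hPs : P ≤ Real.sqrt N := by
    apply Real.le_sqrt_of_sq_le
    have : (((p ^ j) ^ 2 : ℕ) : ℝ) ≤ N := by exact_mod_cast hj
    push_cast at this
    exact this
  have hs1 : (1 : ℝ) ≤ Real.sqrt N := by
    rw [show (1 : ℝ) = Real.sqrt 1 by simp]
    exact Real.sqrt_le_sqrt hNr
  have hsN : Real.sqrt N ≤ N := by
    rw [Real.sqrt_le_left (by linarith)]
    nlinarith
  set R : ℝ := N * η ^ (2 * j) + UU p u * P + 1 with hR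
  have hηj : 0 < η ^ j := pow_pos hη j
  have hη2 : η ^ (2 * j) ≤ η ^ j := pow_le_pow_of_le_one hη.le hη1.le (by omega)
  have hη20 : 0 < η ^ (2 * j) := pow_pos hη _
  have hsub : Vis T j N ⊆ B1 p t T η j N ∪ {y ∈ Icc (-(N : ℤ)) N | ((|y| : ℤ) : ℝ) < R} := by
    intro y hy
    obtain ⟨hy1, hy2⟩ := mem_filter.mp hy
    rw [mem_union]
    by_cases hB : y ∈ B1 p t T η j N
    · exact Or.inl hB
    · right
      rw [mem_filter]
      refine ⟨hy1, ?_⟩
      unfold B1 at hB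
      rw [mem_filter, not_and] at hB
      have hB' := not_lt.mp (hB hy1)
      by_cases hsm : (UU p u : ℝ) * P ≤ (|y| : ℤ)
      · have h1 := fwd h η hη j y hB' hsm
        have h2 : ((|(T ^ j) y| : ℤ) : ℝ) ≤ N := by exact_mod_cast hy2
        have h3 := h1.trans h2
        rw [div_le_iff₀ hη20] at h3
        rw [hR]
        linarith
      · push Not at hsm
        have : 0 ≤ (N : ℝ) * η ^ (2 * j) := by positivity
        linarith
  have h1 : ((Vis T j N).card : ℝ) ≤ ((B1 p t T η j N).card : ℝ) +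
      (({y ∈ Icc (-(N : ℤ)) N | ((|y| : ℤ) : ℝ) < R}.card : ℕ) : ℝ) := by
    exact_mod_cast (card_le_card hsub).trans (card_union_le _ _)
  have h2 := card_B1 h η hη hs j N
  have h3 := card_small N R (by positivity)
  have h4 : (2 * (N : ℝ) + 1 + P) * η ^ j ≤ 4 * N * η ^ j :=
    mul_le_mul_of_nonneg_right (by linarith) hηj.le
  have h5 : (N : ℝ) * η ^ (2 * j) ≤ N * η ^ j := mul_le_mul_of_nonneg_left hη2 (by linarith)
  have h6 : (UU p u : ℝ) * P ≤ UU p u * Real.sqrt N := mul_le_mul_of_nonneg_left hPs hU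
  nlinarith

/-- Points of `[-N, N]` which are again in `[-N, N]` after `j` steps for some `K ≤ j ≤ k`. -/
noncomputable def Ds (T : Equiv.Perm ℤ) (K k N : ℕ) : Finset ℤ :=
  (Ico K (k + 1)).biUnion fun j => Vis T j N

theorem card_Ds (η : ℝ) (hη : 0 < η) (hη1 : η < 1) (hs : ss p t ≤ p * η ^ 2) (K k N : ℕ)
    (hN : 1 ≤ N) (hk : (p ^ k) ^ 2 ≤ N) :
    ((Ds T K k N).card : ℝ) ≤ 6 * N * η ^ K / (1 - η) +
      (k + 1) * ((2 * (UU p u : ℝ) + 3) * Real.sqrt N) := by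
  have hU : (0 : ℝ) ≤ UU p u := by exact_mod_cast (UU_nonneg (p := p) (u := u))
  have h1 : ((Ds T K k N).card : ℝ) ≤ ∑ j ∈ Ico K (k + 1), ((Vis T j N).card : ℝ) := by
    exact_mod_cast card_biUnion_le
  have h2 : ∑ j ∈ Ico K (k + 1), ((Vis T j N).card : ℝ) ≤
      ∑ j ∈ Ico K (k + 1), (6 * N * η ^ j + (2 * (UU p u : ℝ) + 3) * Real.sqrt N) := by
    refine sum_le_sum fun j hj => card_Vis h η hη hη1 hs j N hN ?_
    have hjk : j ≤ k := by have := (mem_Ico.mp hj).2; omega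
    exact (Nat.pow_le_pow_left (Nat.pow_le_pow_right (ppos h) hjk) 2).trans hk
  have h3 : ∑ j ∈ Ico K (k + 1), η ^ j ≤ η ^ K / (1 - η) :=
    geom_sum_Ico_le_of_lt_one hη.le hη1
  rw [sum_add_distrib, ← mul_sum, sum_const, nsmul_eq_mul] at h2
  have h4 : (((Ico K (k + 1)).card : ℕ) : ℝ) ≤ k + 1 := by
    rw [Nat.card_Ico]
    have : k + 1 - K ≤ k + 1 := Nat.sub_le _ _
    exact_mod_cast this
  have h5 : (((Ico K (k + 1)).card : ℕ) : ℝ) * ((2 * (UU p u : ℝ) + 3) * Real.sqrt N) ≤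
      (k + 1) * ((2 * (UU p u : ℝ) + 3) * Real.sqrt N) :=
    mul_le_mul_of_nonneg_right h4 (by positivity)
  have h6 : 6 * (N : ℝ) * ∑ j ∈ Ico K (k + 1), η ^ j ≤ 6 * N * (η ^ K / (1 - η)) :=
    mul_le_mul_of_nonneg_left h3 (by positivity)
  have h7 : 6 * (N : ℝ) * (η ^ K / (1 - η)) = 6 * N * η ^ K / (1 - η) := by ring
  linarith

end

/-- At most `K` good visits in a window of length `k + 1`. -/
theorem block_le (T : Equiv.Perm ℤ) (K k N : ℕ) (x b : ℤ) (F : Finset ℤ)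
    (hF : ∀ i ∈ F, b ≤ i ∧ i ≤ b + k ∧ |(T ^ i) x| ≤ (N : ℤ) ∧ (T ^ i) x ∉ Ds T K k N) :
    F.card ≤ K := by
  rcases F.eq_empty_or_nonempty with hE | hne
  · rw [hE]; simp
  set i0 := F.min' hne with hi0
  have hi0F : i0 ∈ F := F.min'_mem hne
  have hsub : F ⊆ Ico i0 (i0 + K) := by
    intro i hi
    rw [mem_Ico]
    have h1 : i0 ≤ i := F.min'_le i hi
    refine ⟨h1, ?_⟩
    by_contra hcon
    push Not at hcon
    obtain ⟨a1, a2, a3, a4⟩ := hF i hi
    obtain ⟨b1, b2, b3, b4⟩ := hF i0 hi0F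
    apply b4
    unfold Ds
    rw [mem_biUnion]
    refine ⟨(i - i0).toNat, ?_, ?_⟩
    · rw [mem_Ico]
      constructor <;> omega
    · unfold Vis
      rw [mem_filter, mem_Icc]
      refine ⟨abs_le.mp b3, ?_⟩
      have e : (T ^ (i - i0).toNat) ((T ^ i0) x) = (T ^ i) x := by
        rw [← Equiv.Perm.mul_apply, ← zpow_natCast, ← zpow_add]
        congr 2
        omega
      rw [e]
      exact a3
  have := card_le_card hsub
  rw [Int.card_Ico] at this
  omega

/-- Good visits in a window of `n` consecutive times. -/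
theorem good_window (T : Equiv.Perm ℤ) (K k N n : ℕ) (x a : ℤ) :
    {i ∈ Ico a (a + n) | |(T ^ i) x| ≤ (N : ℤ) ∧ (T ^ i) x ∉ Ds T K k N}.card ≤
      K * (n / (k + 1) + 1) := by
  set I := {i ∈ Ico a (a + n) | |(T ^ i) x| ≤ (N : ℤ) ∧ (T ^ i) x ∉ Ds T K k N} with hI
  set g : ℤ → ℕ := fun i => (i - a).toNat / (k + 1) with hg
  have h1 : I.card ≤ K * (I.image g).card := by
    refine card_le_mul_card_image I K fun s _ => ?_
    refine block_le T K k N x (a + s * (k + 1)) _ ?_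
    intro i hi
    obtain ⟨hiI, his⟩ := mem_filter.mp hi
    obtain ⟨hi1, hi2⟩ := mem_filter.mp hiI
    obtain ⟨c1, c2⟩ := mem_Ico.mp hi1
    have h2 : s * (k + 1) ≤ (i - a).toNat := by
      rw [← his]; exact Nat.div_mul_le_self _ _
    have h3 : (i - a).toNat < (s + 1) * (k + 1) := by
      rw [← his]
      simp only [hg]
      have := Nat.lt_mul_div_succ (i - a).toNat (Nat.succ_pos k)
      rw [mul_comm] at this
      exact this
    have h4 : ((s : ℤ) * (k + 1)) ≤ i - a := by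
      have : ((s * (k + 1) : ℕ) : ℤ) ≤ ((i - a).toNat : ℤ) := by exact_mod_cast h2
      rw [Int.toNat_of_nonneg (by omega)] at this
      push_cast at this
      exact this
    have h5 : i - a < ((s : ℤ) + 1) * (k + 1) := by
      have : ((i - a).toNat : ℤ) < (((s + 1) * (k + 1) : ℕ) : ℤ) := by exact_mod_cast h3
      rw [Int.toNat_of_nonneg (by omega)] at this
      push_cast at this
      exact this
    refine ⟨by linarith, by nlinarith, hi2⟩
  have h2 : (I.image g).card ≤ n / (k + 1) + 1 := by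
    have hsub : I.image g ⊆ range (n / (k + 1) + 1) := by
      intro s hs
      obtain ⟨i, hi, rfl⟩ := mem_image.mp hs
      obtain ⟨hi1, hi2⟩ := mem_filter.mp hi
      obtain ⟨c1, c2⟩ := mem_Ico.mp hi1
      rw [mem_range]
      have : (i - a).toNat / (k + 1) ≤ n / (k + 1) := Nat.div_le_div_right (by omega)
      simp only [hg]
      omega
    have := card_le_card hsub
    rwa [card_range] at this
  exact h1.trans (Nat.mul_le_mul_left _ h2)

/-- Distinct points of `[-N, N]` visited in a window of `n` consecutive times. -/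
theorem window_bound (T : Equiv.Perm ℤ) (K k N n : ℕ) (x a : ℤ) :
    ({y | |y| ≤ (N : ℤ) ∧ ∃ i, a ≤ i ∧ i < a + n ∧ (T ^ i) x = y}).ncard ≤
      K * (n / (k + 1) + 1) + (Ds T K k N).card := by
  set I := {i ∈ Ico a (a + n) | |(T ^ i) x| ≤ (N : ℤ) ∧ (T ^ i) x ∉ Ds T K k N} with hI
  have hsub : {y | |y| ≤ (N : ℤ) ∧ ∃ i, a ≤ i ∧ i < a + n ∧ (T ^ i) x = y} ⊆
      ((I.image (fun i => (T ^ i) x) ∪ Ds T K k N : Finset ℤ) : Set ℤ) := by
    rintro y ⟨hy, i, hia, hib, rfl⟩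
    rw [mem_coe, mem_union]
    by_cases hE : (T ^ i) x ∈ Ds T K k N
    · exact Or.inr hE
    · left
      rw [mem_image]
      exact ⟨i, mem_filter.mpr ⟨mem_Ico.mpr ⟨hia, hib⟩, hy, hE⟩, rfl⟩
  have h1 := Set.ncard_le_ncard hsub (Finset.finite_toSet _)
  rw [Set.ncard_coe_finset] at h1
  have h2 := card_union_le (I.image (fun i => (T ^ i) x)) (Ds T K k N)
  have h3 : (I.image (fun i => (T ^ i) x)).card ≤ I.card := card_image_le
  have h4 := good_window T K k N n x a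
  rw [← hI] at h4
  omega

/-- Every non-exceptional visit follows a return within `k` steps. -/
theorem after_return (T : Equiv.Perm ℤ) (κ : ℝ) (hκ : 0 ≤ κ) (k N : ℕ) (x i : ℤ)
    (hi : |(T ^ i) x| ≤ (N : ℤ)) (hE : (T ^ i) x ∉ Ex T κ k N) :
    ∃ r ∈ returns T x N ((N : ℝ) ^ (1 + κ)), r ≤ i ∧ i < r + k := by
  set f : ℤ → ℤ := fun i => (T ^ i) x with hf
  have hk := kpos T κ hκ k N (f i) hi hE
  have hbig := (mem_Ex_iff T κ k N (f i) hi).mp hE
  have hback : (T ^ k)⁻¹ (f i) = f (i - k) := by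
    simp only [hf]
    rw [← Equiv.Perm.mul_apply, ← zpow_natCast, ← zpow_neg, ← zpow_add]
    congr 2
    ring
  rw [hback] at hbig
  have hex : ∃ n : ℕ, |f (i - k + 1 + n)| ≤ (N : ℤ) ∧ i - k + 1 + n ≤ i := by
    refine ⟨k - 1, ?_, ?_⟩
    · have e : i - k + 1 + ((k - 1 : ℕ) : ℤ) = i := by
        push_cast [Nat.cast_sub hk]; ring
      rw [e]; exact hi
    · push_cast [Nat.cast_sub hk]; linarith
  classical
  set n0 := Nat.find hex with hn0
  have hspec := Nat.find_spec hex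
  rw [← hn0] at hspec
  refine ⟨i - k + 1 + n0, ?_, hspec.2, by omega⟩
  refine ⟨hspec.1, i - k, by omega, hbig.2, ?_⟩
  intro l hl1 hl2
  have hmin := Nat.find_min hex (m := (l - (i - k + 1)).toNat) (by
    rw [← hn0]; omega)
  have e : i - (k : ℤ) + 1 + ((l - (i - k + 1)).toNat : ℤ) = l := by omega
  rw [e] at hmin
  by_contra hcon
  exact hmin ⟨not_lt.mp hcon, by omega⟩

/-- Points of an infinite orbit in `[-N, N]` and returns. -/
theorem orbit_bound (T : Equiv.Perm ℤ) (κ : ℝ) (hκ : 0 ≤ κ) (K k N : ℕ) (x : ℤ)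
    (hx : (orbit T x).Infinite) :
    (returns T x N ((N : ℝ) ^ (1 + κ))).Finite ∧
    (orbit T x ∩ {y | |y| ≤ (N : ℤ)}).ncard
      ≤ K * (returns T x N ((N : ℝ) ^ (1 + κ))).ncard + (Ex T κ k N).card
        + (Ds T K k N).card := by
  have hRfin := (visits_le T κ hκ k N x hx).1
  refine ⟨hRfin, ?_⟩
  have hinj := inj_of_infinite T x hx
  set R := hRfin.toFinset with hR
  set G : Finset ℤ := R.biUnion (fun r => {i ∈ Ico r (r + k) | |(T ^ i) x| ≤ (N : ℤ) ∧
    (T ^ i) x ∉ Ds T K k N}) with hG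
  have hsub : orbit T x ∩ {y | |y| ≤ (N : ℤ)} ⊆
      (((G.image (fun i => (T ^ i) x) ∪ Ex T κ k N) ∪ Ds T K k N : Finset ℤ) : Set ℤ) := by
    rintro y ⟨⟨i, rfl⟩, hy⟩
    have hy' : |(T ^ i) x| ≤ (N : ℤ) := hy
    rw [mem_coe, mem_union, mem_union]
    by_cases hE : (T ^ i) x ∈ Ex T κ k N
    · exact Or.inl (Or.inr hE)
    by_cases hD : (T ^ i) x ∈ Ds T K k N
    · exact Or.inr hD
    left; left
    obtain ⟨r, hr, hr1, hr2⟩ := after_return T κ hκ k N x i hy' hE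
    rw [mem_image]
    refine ⟨i, ?_, rfl⟩
    rw [hG, mem_biUnion]
    exact ⟨r, hRfin.mem_toFinset.mpr hr, mem_filter.mpr ⟨mem_Ico.mpr ⟨hr1, hr2⟩, hy', hD⟩⟩
  have h1 := Set.ncard_le_ncard hsub (Finset.finite_toSet _)
  rw [Set.ncard_coe_finset] at h1
  have h2 := card_union_le (G.image (fun i => (T ^ i) x) ∪ Ex T κ k N) (Ds T K k N)
  have h3 := card_union_le (G.image (fun i => (T ^ i) x)) (Ex T κ k N)
  have h4 : (G.image (fun i => (T ^ i) x)).card ≤ G.card := card_image_le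
  have h5 : G.card ≤ R.card * K := by
    refine card_biUnion_le_card_mul _ _ _ fun r _ => ?_
    refine block_le T K k N x r _ ?_
    intro i hi
    obtain ⟨hi1, hi2⟩ := mem_filter.mp hi
    obtain ⟨c1, c2⟩ := mem_Ico.mp hi1
    exact ⟨c1, c2.le, hi2⟩
  rw [Set.ncard_eq_toFinset_card _ hRfin, ← hR]
  have h6 : R.card * K = K * R.card := mul_comm _ _
  rw [h6] at h5
  linarith

end Pool.Agent.H7V
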